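import Pool.Agent.Lib.MP_153a79_co.MG.Main
import Pool.Agent.Lib.MP_153a79_co.MG.F6

/-!
# MP_153a79_co: almost all quivers

For almost all quivers the whole mutation class is abundant and infinite, and at most `n` of its members (none, if
there is an oriented triangle) have a maximal green sequence.

The definitions (`mu`, `muF`, `IsMGS`, `Reach`, `Ab`, `Tri`, `Expanding`, `Sk`) are in
`Pool/Agent/Lib/MP_153a79_co/MG/Defs.lean`. By `frozen_set` (proved by `rfl`) the set of the frozen statement is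
`{B' | Reach B B' ∧ ∃ t, IsMGS B' t}`.
-/

set_option autoImplicit false

namespace Pool.Agent.Results.MP_153a79_co.AlmostAllQuivers

open Pool.Agent.Lib.MP_153a79_co.MG

theorem result :
    -- almost all quivers are expanding, with all multiplicities at least three
    (∀ n N : ℕ, 1 ≤ n → 1 ≤ N →
      ((Sk n N \ {B | Expanding B ∧ ∀ i j, i ≠ j → 3 ≤ |B i j|}).ncard : ℝ) ≤
        3 * (n : ℝ) ^ 3 * (1 + Real.log N) / N * ((Sk n N).ncard : ℝ)) ∧
    -- expanding quivers
    ∀ (n : ℕ) (B : Matrix (Fin n) (Fin n) ℤ), B.transpose = -B → Expanding B →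
      (∀ B', Reach B B' → Ab B') ∧
      {B' | Reach B B' ∧ ∃ t, IsMGS B' t}.Finite ∧
      {B' | Reach B B' ∧ ∃ t, IsMGS B' t}.ncard ≤ max n 1 ∧
      (Tri B → ∀ B', Reach B B' → ¬ ∃ t, IsMGS B' t) ∧
      (3 ≤ n → (∃ i j, 3 ≤ |B i j|) → {B' | Reach B B'}.Infinite) := by
  refine ⟨density, ?_⟩
  intro n B hB he
  have h := skew_of hB
  have hcl := expanding_class h he
  have hno : ∀ B', Reach B B' → NoS B' := fun B' hr => (hcl B' hr).noS (hr.skew h)
  refine ⟨hcl, (mgs_count h hcl).1, (mgs_count h hcl).2, fun hT B' hr => no_mgs_expanding h he hT hr, ?_⟩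
  rintro hn ⟨i, j, hij⟩
  have hne : i ≠ j := by
    rintro rfl
    have h0 : B i i = 0 := by
      have := h i i
      omega
    rw [h0] at hij
    simp at hij
  obtain ⟨r, hr⟩ : ∃ r : Fin n, r ∉ ({i, j} : Finset (Fin n)) := by
    by_contra hc
    push_neg at hc
    have h1 : (Finset.univ : Finset (Fin n)) ⊆ {i, j} := fun x _ => hc x
    have h2 := Finset.card_le_card h1
    have h3 : ({i, j} : Finset (Fin n)).card ≤ 2 := Finset.card_le_two
    rw [Finset.card_univ, Fintype.card_fin] at h2
    omega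
  simp only [Finset.mem_insert, Finset.mem_singleton, not_or] at hr
  have hab : Ab B := he.1
  have h1 : B i j ≠ 0 := by
    intro h0
    rw [h0] at hij
    simp at hij
  have h2 : B j r ≠ 0 := by
    intro h0
    have := hab j r (Ne.symm hr.2)
    rw [h0] at this
    simp at this
  refine noS_infinite h hno hne (Ne.symm hr.2) hr.1 ⟨Or.inl ⟨h1, h2⟩, ?_⟩
  rintro ⟨h4, _, _⟩
  omega

end Pool.Agent.Results.MP_153a79_co.AlmostAllQuivers
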