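import Pool.Agent.Lib.MP_153a79_co.MG.Main
import Pool.Agent.Lib.MP_153a79_co.MG.F5
import Pool.Agent.Lib.MP_153a79_co.MG.F6
import Pool.Agent.Lib.MP_153a79_co.MG.F7

/-!
# MP_153a79_co: mutation classes without simple arrows

In a mutation class without simple arrows exactly the acyclic quivers have a maximal green sequence, there are at most
`n!` of them (at most `n` if the class is abundant), and they are related by mutations at sinks and sources; such a class
is infinite except in obvious cases. This applies to all quivers with multiplicities divisible by some `d ≥ 2`.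

The definitions (`mu`, `muF`, `IsMGS`, `Reach`, `NoS`, `Cyc`, `Ab`) are in
`Pool/Agent/Lib/MP_153a79_co/MG/Defs.lean`, `SS` and `SSv` are in `F2.lean` and `F1.lean`. By `frozen_set` (proved by
`rfl`) the set of the frozen statement is `{B' | Reach B B' ∧ ∃ t, IsMGS B' t}`.
-/

set_option autoImplicit false

namespace Pool.Agent.Results.MP_153a79_co.NoSimpleArrows

open Pool.Agent.Lib.MP_153a79_co.MG

theorem result (n : ℕ) (B : Matrix (Fin n) (Fin n) ℤ) (hB : B.transpose = -B) :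
    -- classes without simple arrows
    ((∀ B', Reach B B' → NoS B') →
      {B' | Reach B B' ∧ ∃ t, IsMGS B' t}.Finite ∧
      {B' | Reach B B' ∧ ∃ t, IsMGS B' t}.ncard ≤ n.factorial ∧
      ((∀ B', Reach B B' → Ab B') → {B' | Reach B B' ∧ ∃ t, IsMGS B' t}.ncard ≤ max n 1) ∧
      (∀ B', Reach B B' → ((∃ t, IsMGS B' t) ↔ ¬ Cyc B')) ∧
      (∀ B₁ B₂, Reach B B₁ → Reach B B₂ → (∃ t, IsMGS B₁ t) → (∃ t, IsMGS B₂ t) → SS B₁ B₂) ∧
      (∀ p q r, p ≠ q → q ≠ r → r ≠ p → B p q ≠ 0 → B q r ≠ 0 →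
        ¬ (|B p q| = 2 ∧ |B q r| = 2 ∧ |B r p| = 2) → {B' | Reach B B'}.Infinite)) ∧
    -- criteria
    ((∃ d : ℤ, 2 ≤ d ∧ ∀ i j, d ∣ B i j) → ∀ B', Reach B B' → NoS B') ∧
    ((∃ D : Fin n → Fin n → ℕ, ∀ i j, i ≠ j → (D i j : ℤ) ∣ B i j ∧ D i j ≠ 1 ∧
      ∀ l, l ≠ i → l ≠ j → D i j ∣ D i l * D l j) → ∀ B', Reach B B' → NoS B') ∧
    (NoS B → ¬ Cyc B → ∀ B', Reach B B' → NoS B') := by
  have h := skew_of hB
  refine ⟨?_, ?_, ?_, fun h1 h2 => noS_acyclic h h1 h2⟩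
  · intro hab
    refine ⟨mgs_finite h hab, mgs_factorial h hab, fun ha => (mgs_count h ha).2,
      fun B' hr => mgs_iff h hab hr, fun B₁ B₂ h1 h2 ht1 ht2 => mgs_ss h hab h1 h2 ht1 ht2, ?_⟩
    intro p q r hpq hqr hrp h1 h2 h3
    exact noS_infinite h hab hpq hqr hrp ⟨Or.inl ⟨h1, h2⟩, h3⟩
  · rintro ⟨d, hd, hdvd⟩
    exact noS_dvd hd hdvd
  · rintro ⟨D, hD⟩
    exact noS_pat h hD

end Pool.Agent.Results.MP_153a79_co.NoSimpleArrows
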